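import Pool.Agent.helper26.IM.SpecA

/-!
# Project im: AFD, all fields
-/

set_option autoImplicit false

open Finset

namespace Pool.Agent.helper26.IM

open Pool.Agent.RRank Pool.Agent.helper35.MR

/-- AFD: all fields. -/
theorem AFD (hCPX : CPX_stmt) (hNFM : NFM_stmt) (hNFC : NFC_stmt) (hSTA : STA_stmt) : AFD_stmt := by
  intro l
  obtain ⟨G0, hG0⟩ := hSTA l
  obtain ⟨G, N, hGN⟩ := hCPX G0
  refine ⟨G, fun K _ X Y Z T hT => ?_⟩
  obtain ⟨x, y, z, hxyz⟩ := hGN K (AlgebraicClosure K) (algebraMap K (AlgebraicClosure K)) X Y Z T hT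
  obtain ⟨x', y', z', hfull⟩ := hG0 (AlgebraicClosure K) (Fin N) (Fin N) (Fin N) _ hxyz
  refine ⟨fun i => x (x' i), fun j => y (y' j), fun k => z (z' k), ?_⟩
  by_contra hcon
  rw [← hNFC K] at hcon
  exact (hNFC (AlgebraicClosure K) (Fin l) _).1
    (hNFM K (AlgebraicClosure K) (algebraMap K (AlgebraicClosure K)) (Fin l) _ hcon) hfull

end Pool.Agent.helper26.IM
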