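import Pool.Agent.helper26.IM.SpecA

/-!
# Project im: CEX, two extensions of a field have a common extension
-/

set_option autoImplicit false

open Finset

namespace Pool.Agent.helper26.IM

open Pool.Agent.RRank Pool.Agent.helper35.MR
open scoped TensorProduct

/-- CEX: two extensions of a field have a common extension. -/
theorem CEX : CEX_stmt := by
  intro k K κ _ _ _ f g
  letI : Algebra k K := f.toAlgebra
  letI : Algebra k κ := g.toAlgebra
  have hinj : Function.Injective
      (Algebra.TensorProduct.includeLeft : K →ₐ[k] K ⊗[k] κ) :=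
    Algebra.TensorProduct.includeLeft_injective g.injective
  haveI : Nontrivial (K ⊗[k] κ) := hinj.nontrivial
  obtain ⟨M, hM⟩ := Ideal.exists_maximal (K ⊗[k] κ)
  refine ⟨(K ⊗[k] κ) ⧸ M, Ideal.Quotient.field M,
    (Ideal.Quotient.mk M).comp (Algebra.TensorProduct.includeLeft : K →ₐ[k] K ⊗[k] κ).toRingHom,
    (Ideal.Quotient.mk M).comp (Algebra.TensorProduct.includeRight : κ →ₐ[k] K ⊗[k] κ).toRingHom,
    fun x => ?_⟩
  have h1 : (Algebra.TensorProduct.includeLeft : K →ₐ[k] K ⊗[k] κ) (algebraMap k K x) =
      (Algebra.TensorProduct.includeRight : κ →ₐ[k] K ⊗[k] κ) (algebraMap k κ x) := by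
    rw [AlgHom.commutes, AlgHom.commutes]
  exact congrArg (Ideal.Quotient.mk M) h1

end Pool.Agent.helper26.IM
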