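import Pool.Agent.helper26.IM.SpecA

/-!
# Project im: DST, dual tensors
-/

set_option autoImplicit false

open Finset

namespace Pool.Agent.helper26.IM

open Pool.Agent.RRank Pool.Agent.helper35.MR

/-- DST: if the functionals `h i` separate the points of the span, the dual tensor has the decompositions of the
tensor `h i (t y z)`. -/
theorem DST : DST_stmt := by
  classical
  intro K _ V _ _ Y Z _ _ t H h hsep r hr
  set W : Submodule K V := Submodule.span K (Set.range fun p : Y × Z => t p.1 p.2) with hW
  have : FiniteDimensional K W := FiniteDimensional.span_of_finite K (Set.finite_range _)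
  set hw : H → Module.Dual K W := fun i => (h i).comp W.subtype with hhw
  have htop : Submodule.span K (Set.range hw) = ⊤ := by
    set Φ : Subspace K (Module.Dual K W) := Submodule.span K (Set.range hw) with hΦ
    have h1 : Φ.dualCoannihilator = ⊥ := by
      rw [eq_bot_iff]
      intro w hwm
      rw [Submodule.mem_bot]
      by_contra hne
      obtain ⟨i, hi⟩ := hsep (w : V) w.2 (fun h0 => hne (Subtype.ext h0))
      rw [Submodule.mem_dualCoannihilator] at hwm
      exact hi (hwm (hw i) (Submodule.subset_span ⟨i, rfl⟩))
    rw [← Subspace.dualCoannihilator_dualAnnihilator_eq (W := Φ), h1,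
      Submodule.dualAnnihilator_bot]
  have hfg : (Submodule.span K (Set.range hw)).FG := IsNoetherian.noetherian _
  obtain ⟨s, hs1, hs2⟩ := Submodule.fg_span_iff_fg_span_finset_subset _ |>.1 hfg
  rw [htop] at hs2
  have hidx : ∀ φ : s, ∃ i, hw i = φ := fun φ => hs1 φ.2
  choose idx hidx using hidx
  have hc : ∀ f : Module.Dual K V, ∃ c : s → K, ∀ w : W, f w = ∑ φ, c φ * h (idx φ) w := by
    intro f
    have h1 : f.comp W.subtype ∈ Submodule.span K (s : Set (Module.Dual K W)) := by
      rw [← hs2]
      exact Submodule.mem_top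
    rw [Submodule.mem_span_finset] at h1
    obtain ⟨c, _, hc⟩ := h1
    refine ⟨fun φ => c φ, fun w => ?_⟩
    have h2 := congrArg (fun g : Module.Dual K W => g w) hc
    simp only [LinearMap.sum_apply, LinearMap.smul_apply, smul_eq_mul] at h2
    change _ = f w at h2
    rw [← h2, ← Finset.sum_coe_sort s (fun φ => c φ * φ w)]
    refine Finset.sum_congr rfl fun φ _ => ?_
    have h5 : (φ : Module.Dual K W) w = h (idx φ) w := by
      rw [← hidx φ]
      rfl
    rw [h5]
  choose c hc using hc
  have h3 := S3.lin1 hr (fun (_ : Module.Dual K V) (φ : s) => idx φ) c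
  have h4 : (fun (f : Module.Dual K V) (y : Y) (z : Z) => f (t y z)) =
      fun (f : Module.Dual K V) (y : Y) (z : Z) => ∑ φ : s, c f φ * h (idx φ) (t y z) := by
    funext f y z
    exact hc f ⟨t y z, Submodule.subset_span ⟨(y, z), rfl⟩⟩
  rw [h4]
  exact h3

end Pool.Agent.helper26.IM
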